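import Pool.Agent.Work.MP_ce4ed9_an.Main

/-! The set of parameters for which `x ↦ β x + α mod 1` is transitive but not LEO is countable. -/

namespace Pool.Agent.Results.MP_ce4ed9_an.Countable

open Pool.Agent.Work.MP_ce4ed9_an

theorem result :
    {q : ℝ × ℝ | (1 < q.2 ∧ q.2 ≤ 2 ∧ 0 ≤ q.1 ∧ q.1 + q.2 ≤ 2) ∧
      TopTransitive (betaMap q.1 q.2) ∧ ¬ TopLEO (betaMap q.1 q.2)}.Countable :=
  countable_Exc.mono fun _ hq => main ⟨hq.1.1, hq.1.2.2.1, hq.1.2.2.2⟩ hq.2.1 hq.2.2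

end Pool.Agent.Results.MP_ce4ed9_an.Countable
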